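import Mathlib

set_option autoImplicit false

namespace Pool.Agent.Results.MP_87ec9a_co.PowerSaving

/-- `A` contains a `k`-term progression with common difference `d` for every `1 ≤ d ≤ N` -/
def Good (N k : ℕ) (A : Finset ℕ) : Prop :=
  ∀ d : ℕ, 1 ≤ d → d ≤ N → ∃ a : ℕ, ∀ i < k, a + i * d ∈ A

/-- `m(N,k)` -/
noncomputable def m (N k : ℕ) : ℕ := sInf {c | ∃ A : Finset ℕ, A.card = c ∧ Good N k A}

theorem digit_sum (B : ℕ) (hB : 0 < B) (k : ℕ) : ∀ d : ℕ, d < B ^ k →
    ∑ j ∈ Finset.range k, (d / B ^ j % B) * B ^ j = d := by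
  induction k with
  | zero => intro d hd; simp at hd; simp [hd]
  | succ k ih =>
    intro d hd
    rw [Finset.sum_range_succ']
    have h1 : d / B < B ^ k := by
      rw [Nat.div_lt_iff_lt_mul hB]; rw [pow_succ] at hd; exact hd
    have h2 := ih (d / B) h1
    have h3 : ∑ j ∈ Finset.range k, (d / B ^ (j + 1) % B) * B ^ (j + 1) =
        B * ∑ j ∈ Finset.range k, (d / B / B ^ j % B) * B ^ j := by
      rw [Finset.mul_sum]
      refine Finset.sum_congr rfl fun j _ => ?_
      rw [pow_succ', Nat.div_div_eq_div_mul]; ring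
    rw [h3, h2]
    simp only [pow_zero, Nat.div_one, mul_one]
    exact Nat.div_add_mod d B

theorem exists_A (N k B : ℕ) (hB : 0 < B) (hN : N < B ^ k) :
    ∃ A : Finset ℕ, A.card ≤ k * (2 * (k * B) + 1) ^ (k - 1) ∧ Good N k A := by
  classical
  set M : ℤ := ∑ j : Fin k, ((k * B : ℕ) : ℤ) * (B : ℤ) ^ (j : ℕ) with hM
  let φ : (Fin k → ℤ) → ℤ := fun x => ∑ j : Fin k, x j * (B : ℤ) ^ (j : ℕ)
  let S : Fin k → Finset (Fin k → ℤ) := fun j => Fintype.piFinset
    (fun l => if l = j then {0} else Finset.Icc (-((k * B : ℕ) : ℤ)) ((k * B : ℕ) : ℤ))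
  let A : Finset ℕ := Finset.univ.biUnion fun j : Fin k => (S j).image fun x => (φ x + M).toNat
  refine ⟨A, ?_, ?_⟩
  · have hS : ∀ j : Fin k, (S j).card = (2 * (k * B) + 1) ^ (k - 1) := by
      intro j
      rw [Fintype.card_piFinset]
      have h1 : ∀ l : Fin k, (if l = j then ({0} : Finset ℤ) else
          Finset.Icc (-((k * B : ℕ) : ℤ)) ((k * B : ℕ) : ℤ)).card = if l = j then 1 else 2 * (k * B) + 1 := by
        intro l
        split_ifs
        · simp
        · rw [Int.card_Icc]; omega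
      rw [Finset.prod_congr rfl fun l _ => h1 l, Finset.prod_ite]
      simp only [Finset.prod_const_one, one_mul, Finset.prod_const]
      congr 1
      rw [Finset.filter_ne' Finset.univ j, Finset.card_erase_of_mem (Finset.mem_univ _), Finset.card_univ,
        Fintype.card_fin]
    calc A.card ≤ ∑ j : Fin k, ((S j).image fun x => (φ x + M).toNat).card := Finset.card_biUnion_le
      _ ≤ ∑ j : Fin k, (2 * (k * B) + 1) ^ (k - 1) :=
          Finset.sum_le_sum fun j _ => Finset.card_image_le.trans (hS j).le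
      _ = _ := by simp
  · intro d _ hd
    have hdig := digit_sum B hB k d (by omega)
    let x : ℕ → Fin k → ℤ := fun i j => ((i : ℤ) - (j : ℕ)) * ((d / B ^ (j : ℕ) % B : ℕ) : ℤ)
    have hφ : ∀ i, φ (x i) = φ (x 0) + i * d := by
      intro i
      have e : (d : ℤ) = ∑ j : Fin k, ((d / B ^ (j : ℕ) % B : ℕ) : ℤ) * (B : ℤ) ^ (j : ℕ) := by
        rw [Fin.sum_univ_eq_sum_range (fun j => ((d / B ^ j % B : ℕ) : ℤ) * (B : ℤ) ^ j) k]
        exact_mod_cast hdig.symm
      conv_rhs => rw [e]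
      rw [Finset.mul_sum, ← Finset.sum_add_distrib]
      refine Finset.sum_congr rfl fun j _ => ?_
      simp only [x]; push_cast; ring
    have hx : ∀ i < k, ∀ j : Fin k, |x i j| ≤ ((k * B : ℕ) : ℤ) := by
      intro i hi j
      simp only [x]
      rw [abs_mul]
      have h1 : |(i : ℤ) - (j : ℕ)| ≤ k := by
        have := j.2
        rw [abs_le]; constructor <;> omega
      have h2 : |((d / B ^ (j : ℕ) % B : ℕ) : ℤ)| ≤ B := by
        rw [abs_of_nonneg (Int.natCast_nonneg _)]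
        exact_mod_cast (Nat.mod_lt _ hB).le
      calc _ ≤ (k : ℤ) * B := mul_le_mul h1 h2 (abs_nonneg _) (Int.natCast_nonneg _)
        _ = _ := by push_cast; ring
    have hnn : ∀ i < k, 0 ≤ φ (x i) + M := by
      intro i hi
      simp only [φ, hM]
      rw [← Finset.sum_add_distrib]
      apply Finset.sum_nonneg
      intro j _
      have h3 := (abs_le.1 (hx i hi j)).1
      rw [← add_mul]
      apply mul_nonneg _ (by positivity)
      linarith
    rcases Nat.eq_zero_or_pos k with hk | hk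
    · exact ⟨0, fun i hi => by omega⟩
    refine ⟨(φ (x 0) + M).toNat, fun i hi => ?_⟩
    have e : (φ (x 0) + M).toNat + i * d = (φ (x i) + M).toNat := by
      have h0 := hnn 0 hk
      have h1 := hnn i hi
      zify
      rw [Int.toNat_of_nonneg h0, Int.toNat_of_nonneg h1, hφ i]
      ring
    rw [e]
    have hxi : x i ∈ S ⟨i, hi⟩ := by
      apply Fintype.mem_piFinset.2
      intro l
      split_ifs with h
      · subst h; simp [x]
      · rw [Finset.mem_Icc]
        exact abs_le.1 (hx i hi l)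
    exact Finset.mem_biUnion.2 ⟨⟨i, hi⟩, Finset.mem_univ _, Finset.mem_image_of_mem _ hxi⟩

theorem m_le (N k B : ℕ) (hB : 0 < B) (hN : N < B ^ k) : m N k ≤ k * (2 * (k * B) + 1) ^ (k - 1) := by
  obtain ⟨A, hA, hg⟩ := exists_A N k B hB hN
  have h1 : m N k ≤ A.card := Nat.sInf_le ⟨A, rfl, hg⟩
  exact h1.trans hA

/-- `m(N,k) = O_k(N^(1-1/k))`. -/
theorem result : ∀ k : ℕ, 1 ≤ k → ∃ C : ℝ, ∀ N : ℕ, 1 ≤ N → (m N k : ℝ) ≤ C * (N : ℝ) ^ (1 - 1 / (k : ℝ)) := by
  intro k hk
  have hk0 : (0:ℝ) < k := by exact_mod_cast hk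
  refine ⟨k * (5 * k) ^ (k - 1), fun N hN => ?_⟩
  have hN1 : (1:ℝ) ≤ N := by exact_mod_cast hN
  set t : ℝ := (N : ℝ) ^ (1 / (k : ℝ)) with ht
  have ht1 : 1 ≤ t := Real.one_le_rpow hN1 (by positivity)
  set B : ℕ := ⌊t⌋₊ + 1 with hB
  have hBt : t < B := by rw [hB]; push_cast; exact Nat.lt_floor_add_one t
  have hB2 : (B:ℝ) ≤ 2 * t := by
    rw [hB]; push_cast
    have := Nat.floor_le (by linarith : 0 ≤ t)
    linarith
  have htk : t ^ k = N := by
    rw [ht, ← Real.rpow_natCast, ← Real.rpow_mul (by linarith)]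
    rw [one_div, inv_mul_cancel₀ hk0.ne', Real.rpow_one]
  have hlt : N < B ^ k := by
    have : (N:ℝ) < (B:ℝ) ^ k := by
      rw [← htk]; exact pow_lt_pow_left₀ hBt (by linarith) (by omega)
    exact_mod_cast this
  have h1 := m_le N k B (by omega) hlt
  have h2 : (m N k : ℝ) ≤ k * (2 * (k * B) + 1) ^ (k - 1) := by exact_mod_cast h1
  have hk1 : (1:ℝ) ≤ k := by exact_mod_cast hk
  have h3 : (2 * (k * B) + 1 : ℝ) ≤ 5 * k * t := by nlinarith [mul_le_mul hk1 ht1 (by norm_num) hk0.le]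
  have h4 : t ^ (k - 1) = (N : ℝ) ^ (1 - 1 / (k : ℝ)) := by
    rw [ht, ← Real.rpow_natCast, ← Real.rpow_mul (by linarith)]
    congr 1
    rw [Nat.cast_sub hk]
    field_simp
    push_cast; ring
  calc (m N k : ℝ) ≤ k * (2 * (k * B) + 1) ^ (k - 1) := h2
    _ ≤ k * (5 * k * t) ^ (k - 1) := by gcongr
    _ = k * (5 * k) ^ (k - 1) * (N : ℝ) ^ (1 - 1 / (k : ℝ)) := by rw [mul_pow, h4]; ring

end Pool.Agent.Results.MP_87ec9a_co.PowerSaving
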